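import Pool.Agent.Helper66.FS.Decomp

/-!
# Property (F) and computable partitions

Let the computable sets `R_i` form a partition of `ω`. The Friedberg splittings of `A` are the
unions of Friedberg splittings of the sets `A ∩ R_i`. A computable set outside `R`, or a computable
set disjoint from `R` all of which is put into the half, can be absorbed by a noncomputable half of
`A ∩ R`, since the half and its complement in `A ∩ R` contain infinite computable sets. So one gets
an automorphism between two halves of `A` from automorphisms for the noncomputable pieces; the
computable pieces are absorbed by one noncomputable piece.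

Conversely let the pieces be indecomposable, and let `X`, `X'` be halves of `A ∩ R_i`. Take halves
`U_j` of the other pieces (Friedberg's theorem). An automorphism which takes `X ∪ ⋃ U_j` to
`X' ∪ ⋃ U_j` takes each noncomputable piece, up to computable sets which are absorbed, to one of the
pieces; this is a permutation of the noncomputable pieces, and cancellation gives an automorphism
which takes `X` to `X'`.
-/

namespace Pool.Agent.Results.MP_537c74_lc.Decomposition

open Pool.Agent.Helper66.FS

/-- Let `A` be a c.e. set and let `R_i` be computable sets which form a finite partition of `ω`
such that no `A ∩ R_i` is split into two noncomputable parts by a computable set. Then the orbit of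
`A` has property (F) if and only if `A` is empty, or `A` is noncomputable and the orbits of all
noncomputable `A ∩ R_i` have property (F). -/
theorem result {A : Set ℕ} (hA : CE A) {n : ℕ} {R : Fin n → Set ℕ}
    (hR : ∀ i, Comp (R i)) (hd : ∀ i j, i ≠ j → R i ∩ R j = ∅) (hu : ⋃ i, R i = Set.univ)
    (hind : ∀ i, Indecomposable (A ∩ R i)) :
    PropertyF (orbit A) ↔ A = ∅ ∨
      (¬ Comp A ∧ ∀ i, ¬ Comp (A ∩ R i) → PropertyF (orbit (A ∩ R i))) :=
  propertyF_decomposition hA hR hd hu hind

end Pool.Agent.Results.MP_537c74_lc.Decomposition
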