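import Pool.Agent.Helper66.FS.Halves

/-!
# Property (F) and halves of halves

If `A = A₀ ⊔ A₁` and `A₀ = B₀ ⊔ B₁` are Friedberg splittings, then so is `A = B₀ ⊔ (B₁ ∪ A₁)`:
if `W - A` is not c.e. and `V = W - (B₁ ∪ A₁)` is c.e., then `V - A = W - A` is not c.e., so
`V - A₁` is not c.e., but `V - A₁ = V`. Hence the halves of the halves are halves. With Friedberg's
theorem and the invariance of Friedberg splittings under automorphisms this gives the result.
-/

namespace Pool.Agent.Results.MP_537c74_lc.Halves

open Pool.Agent.Helper66.FS

/-- The orbit of a c.e. set `A` has property (F) if and only if the Friedberg halves of its members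
form an orbit, which is then the set of the Friedberg halves of its own members. -/
theorem result {A : Set ℕ} (hA : CE A) : PropertyF (orbit A) ↔
    ∃ P, CE P ∧ halves (orbit A) = orbit P ∧ halves (orbit P) = orbit P :=
  propertyF_iff_halves hA

end Pool.Agent.Results.MP_537c74_lc.Halves
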